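import Mathlib

/-! The cubic character of two modulo a prime `n ^ 2 + n + 1`. -/

open Finset

namespace Pool.Agent.Lib.MP_c1fe4e_nt

/-- First coordinate of the `k`-th power of a primitive cube root of unity. -/
def al (k : ℕ) : ℤ := if k % 3 = 0 then 1 else if k % 3 = 1 then 0 else -1

/-- Second coordinate of the `k`-th power of a primitive cube root of unity. -/
def be (k : ℕ) : ℤ := if k % 3 = 0 then 0 else if k % 3 = 1 then 1 else -1

theorem cube_one {R : Type*} [CommRing R] {y : R} (h : y ^ 2 + y + 1 = 0) : y ^ 3 = 1 := by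
  linear_combination (y - 1) * h

theorem pow_al_be {R : Type*} [CommRing R] {y : R} (h : y ^ 2 + y + 1 = 0) (k : ℕ) :
    y ^ k = al k + be k * y := by
  rw [pow_eq_pow_mod k (cube_one h), al, be]
  have : k % 3 < 3 := Nat.mod_lt _ (by norm_num)
  interval_cases k % 3
  · simp
  · simp
  · simp only [OfNat.ofNat_ne_zero, if_false, OfNat.ofNat_ne_one, Int.cast_neg, Int.cast_one]
    linear_combination h

theorem al_be_odd {k : ℕ} (h1 : Odd (al k)) (h2 : Odd (be k)) : al k = -1 ∧ be k = -1 := by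
  unfold al be at *
  split_ifs at * <;> simp_all

theorem sum_parity {F : Type*} [Field F] [Fintype F] {h : F} (hh : 2 * h = 1) (g : F → ℤ) :
    (∑ x : F, g (x * (1 - x))) % 2 = g (h * (1 - h)) % 2 := by
  classical
  rw [← Int.ModEq, ← show ((2 : ℕ) : ℤ) = 2 from rfl, ← ZMod.intCast_eq_intCast_iff, Int.cast_sum,
    ← add_sum_erase _ _ (mem_univ h), add_eq_left]
  refine sum_involution (fun a _ => 1 - a) (fun a _ => ?_) (fun a ha _ e => ?_) (fun a ha => ?_)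
    fun a _ => sub_sub_cancel _ _
  · rw [sub_sub_cancel, mul_comm (1 - a)]
    exact CharTwo.add_self_eq_zero _
  · refine ne_of_mem_erase ha ?_
    linear_combination (-a) * hh - h * e
  · refine mem_erase.2 ⟨fun e => ne_of_mem_erase ha ?_, mem_univ _⟩
    linear_combination -e - hh

theorem sum_pow_zero {F : Type*} [Field F] [Fintype F] {f : ℕ} (hf : 0 < f)
    (hc : Fintype.card F = 3 * f + 1) : ∑ x : F, (x * (1 - x)) ^ f = 0 := by
  have e : ∀ x : F, (x * (1 - x)) ^ f =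
      ∑ i ∈ range (f + 1), ((-1) ^ i * (f.choose i : F)) * x ^ (f + i) := fun x => by
    rw [mul_pow, show 1 - x = -x + 1 by ring, add_pow, mul_sum]
    refine sum_congr rfl fun i _ => ?_
    rw [neg_pow, pow_add]
    ring
  simp only [e]
  rw [sum_comm]
  refine sum_eq_zero fun i hi => ?_
  rw [← mul_sum, FiniteField.sum_pow_lt_card_sub_one, mul_zero]
  have := mem_range.1 hi
  omega

theorem exists_om : ∃ ω : ℂ, ω ^ 2 + ω + 1 = 0 ∧ IsPrimitiveRoot ω 3 := by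
  have h := Complex.isPrimitiveRoot_exp 3 (by norm_num)
  refine ⟨_, ?_, h⟩
  have := h.geom_sum_eq_zero (by norm_num)
  simp only [sum_range_succ, range_zero, sum_empty, pow_zero, zero_add, pow_one] at this
  linear_combination this

theorem om_indep {ω : ℂ} (h : ω ^ 2 + ω + 1 = 0) {a b : ℤ} (e : (a : ℂ) + b * ω = 0) : b = 0 := by
  have h1 : ((a ^ 2 - a * b + b ^ 2 : ℤ) : ℂ) = 0 := by
    push_cast
    linear_combination ((a : ℂ) - b - b * ω) * e + (b : ℂ) ^ 2 * h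
  have h2 : a ^ 2 - a * b + b ^ 2 = 0 := by exact_mod_cast h1
  nlinarith [sq_nonneg (2 * a - b), sq_nonneg b]

theorem exists_char {F : Type*} [Field F] [Fintype F] {f : ℕ} (hf : 0 < f)
    (hc : Fintype.card F = 3 * f + 1) {w : F} (hw : w ^ 2 + w + 1 = 0) {ω : ℂ}
    (hω : ω ^ 2 + ω + 1 = 0) (hω' : IsPrimitiveRoot ω 3) :
    ∃ χ : MulChar F ℂ, χ ≠ 1 ∧ χ * χ ≠ 1 ∧ χ ^ 3 = 1 ∧
      ∀ x : F, x ≠ 0 → ∃ m : ℕ, x ^ f = w ^ m ∧ χ x = ω ^ m := by
  classical
  obtain ⟨g, hg⟩ := IsCyclic.exists_generator (α := Fˣ)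
  have ho : orderOf g = 3 * f := by
    rw [orderOf_eq_card_of_forall_mem_zpowers hg, Nat.card_eq_fintype_card, Fintype.card_units, hc]
    rfl
  have h3 : ((g : F) ^ f) ^ 3 = 1 := by
    rw [← pow_mul, mul_comm, ← ho, ← Units.val_pow_eq_pow_val, pow_orderOf_eq_one, Units.val_one]
  have h1 : (g : F) ^ f ≠ 1 := fun e => by
    have : g ^ f = 1 := Units.ext (by simpa using e)
    have := Nat.le_of_dvd hf (ho ▸ orderOf_dvd_of_pow_eq_one this)
    omega
  obtain ⟨s, hs, hs'⟩ : ∃ s : ℕ, (s = 1 ∨ s = 2) ∧ (g : F) ^ f = w ^ s := by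
    have : ((g : F) ^ f - 1) * (((g : F) ^ f - w) * ((g : F) ^ f - w ^ 2)) = 0 := by
      linear_combination h3 + (-((g : F) ^ f) ^ 2 + (g : F) ^ f * w - w + 1) * hw
    rcases mul_eq_zero.1 this with h | h
    · exact absurd (sub_eq_zero.1 h) h1
    · rcases mul_eq_zero.1 h with h | h
      · exact ⟨1, Or.inl rfl, by rw [pow_one]; exact sub_eq_zero.1 h⟩
      · exact ⟨2, Or.inr rfl, sub_eq_zero.1 h⟩
  have hu : IsUnit (ω ^ s) := (hω'.isUnit (by norm_num)).pow s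
  have hζ : hu.unit ∈ rootsOfUnity (Fintype.card Fˣ) ℂ := by
    rw [mem_rootsOfUnity', IsUnit.unit_spec, Fintype.card_units, hc, Nat.add_sub_cancel, ← pow_mul,
      mul_left_comm, pow_mul, cube_one hω, one_pow]
  have hv : MulChar.ofRootOfUnity hζ hg g = ω ^ s := MulChar.ofRootOfUnity_spec hζ hg
  have key : ∀ x : F, x ≠ 0 → ∃ m : ℕ, x ^ f = w ^ m ∧ MulChar.ofRootOfUnity hζ hg x = ω ^ m := by
    intro x hx
    obtain ⟨k, hk⟩ := (mem_powers_iff_mem_zpowers.2 (hg (Units.mk0 x hx)))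
    have e : x = (g : F) ^ k := by simpa using (congrArg Units.val hk).symm
    refine ⟨s * k, ?_, ?_⟩
    · rw [e, ← pow_mul, mul_comm, pow_mul, hs', pow_mul]
    · rw [e, map_pow, hv, pow_mul]
  refine ⟨MulChar.ofRootOfUnity hζ hg, fun e => ?_, fun e => ?_, ?_, key⟩
  · rw [e, MulChar.one_apply_coe] at hv
    have := (hω'.pow_eq_one_iff_dvd s).1 hv.symm
    omega
  · have := congrArg (fun χ : MulChar F ℂ => χ g) e
    simp only [MulChar.mul_apply, hv, MulChar.one_apply_coe, ← pow_add] at this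
    have := (hω'.pow_eq_one_iff_dvd _).1 this
    omega
  · refine MulChar.ext fun x => ?_
    obtain ⟨m, -, hm⟩ := key x x.ne_zero
    rw [MulChar.pow_apply_coe, hm, MulChar.one_apply_coe, ← pow_mul, mul_comm, pow_mul,
      cube_one hω, one_pow]

/-- The Jacobi sum of the cubic character in coordinates. -/
theorem jacobi {F : Type*} [Field F] [Fintype F] {f : ℕ} (hf : 0 < f)
    (hc : Fintype.card F = 3 * f + 1) {w h : F} (hw : w ^ 2 + w + 1 = 0) (hh : 2 * h = 1) :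
    ∃ a b : ℤ, a ^ 2 - a * b + b ^ 2 = 3 * f + 1 ∧ (a : F) + b * w = 0 ∧ 3 ∣ b ∧
      (Odd a → Odd b → 2 ^ f = w ^ 2) := by
  classical
  obtain ⟨ω, hω, hω'⟩ := exists_om
  obtain ⟨χ, c1, c2, c3, c4⟩ := exists_char hf hc hw hω hω'
  choose! m hm using c4
  set A : F → ℤ := fun t => if t = 0 then 0 else al (m t) with hA
  set B : F → ℤ := fun t => if t = 0 then 0 else be (m t) with hB
  have hω2 : (ω ^ 2) ^ 2 + ω ^ 2 + 1 = 0 := by linear_combination (ω ^ 2 - ω + 1) * hω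
  have k1 : ∀ t, χ t = A t + B t * ω ∧ χ⁻¹ t = A t + B t * ω ^ 2 ∧ t ^ f = A t + B t * w := by
    intro t
    by_cases ht : t = 0
    · simp [hA, hB, ht, hf.ne', MulChar.map_zero]
    · simp only [hA, hB, if_neg ht]
      refine ⟨(hm t ht).2.trans (pow_al_be hω _), ?_, (hm t ht).1.trans (pow_al_be hw _)⟩
      rw [MulChar.inv_apply_eq_inv', (hm t ht).2, ← pow_al_be hω2]
      refine inv_eq_of_mul_eq_one_right ?_
      rw [← mul_pow, ← pow_succ', cube_one hω, one_pow]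
  set a := ∑ x : F, A (x * (1 - x)) with ha
  set b := ∑ x : F, B (x * (1 - x)) with hb
  have j1 : jacobiSum χ χ = a + b * ω := by
    simp only [jacobiSum, ← map_mul]
    simp only [(k1 _).1, ha, hb, Int.cast_sum, sum_add_distrib, sum_mul]
  have j2 : jacobiSum χ⁻¹ χ⁻¹ = a + b * ω ^ 2 := by
    simp only [jacobiSum, ← map_mul]
    simp only [(k1 _).2.1, ha, hb, Int.cast_sum, sum_add_distrib, sum_mul]
  refine ⟨a, b, ?_, ?_, ?_, fun oa ob => ?_⟩
  · have hr : ringChar ℂ ≠ ringChar F := by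
      rw [ringChar.eq_zero]
      exact (CharP.ringChar_ne_zero_of_finite F).symm
    have e := jacobiSum_mul_jacobiSum_inv hr c1 c1 c2
    rw [j1, j2, hc] at e
    have : ((a ^ 2 - a * b + b ^ 2 : ℤ) : ℂ) = ((3 * f + 1 : ℤ) : ℂ) := by
      push_cast at e ⊢
      linear_combination e - ((a : ℂ) * b + (b : ℂ) ^ 2 * (ω - 1)) * hω
    exact_mod_cast this
  · have e := sum_pow_zero hf hc
    simp only [(k1 _).2.2, sum_add_distrib, ← sum_mul, ← Int.cast_sum] at e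
    exact e
  · obtain ⟨z, hz, e⟩ := exists_jacobiSum_eq_neg_one_add (by norm_num) c3 c3
      (by rw [hc]; simp) hω'
    obtain ⟨u, v, rfl⟩ : ∃ u v : ℤ, z = u + v * ω := by
      clear e
      induction hz using Algebra.adjoin_induction with
      | mem x hx => exact ⟨0, 1, by rw [Set.mem_singleton_iff.1 hx]; simp⟩
      | algebraMap r => exact ⟨r, 0, by simp⟩
      | add x y _ _ h1 h2 =>
        obtain ⟨u, v, rfl⟩ := h1
        obtain ⟨u', v', rfl⟩ := h2
        exact ⟨u + u', v + v', by push_cast; ring⟩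
      | mul x y _ _ h1 h2 =>
        obtain ⟨u, v, rfl⟩ := h1
        obtain ⟨u', v', rfl⟩ := h2
        exact ⟨u * u' - v * v', u * v' + v * u' - v * v', by
          push_cast
          linear_combination ((v : ℂ) * v') * hω⟩
    rw [j1] at e
    have := om_indep hω (a := a + 1 - 3 * v) (b := b - 3 * (v - u)) (by
      push_cast
      linear_combination e + ((u : ℂ) + v * ω - 3 * v) * hω)
    exact ⟨v - u, by linarith⟩
  · have h0 : h ≠ 0 := fun e => by simp [e] at hh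
    have h1 : 1 - h = h := by linear_combination -hh
    have h2 : h * (1 - h) ≠ 0 := by rw [h1]; exact mul_ne_zero h0 h0
    have p1 := sum_parity hh A
    have p2 := sum_parity hh B
    rw [← ha, Int.odd_iff.1 oa] at p1
    rw [← hb, Int.odd_iff.1 ob] at p2
    have e := (k1 (h * (1 - h))).2.2
    simp only [hA, hB, if_neg h2] at p1 p2 e
    obtain ⟨q1, q2⟩ := al_be_odd (Int.odd_iff.2 p1.symm) (Int.odd_iff.2 p2.symm)
    rw [q1, q2, h1] at e
    have h3 : (2 : F) ^ (3 * f) = 1 := by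
      have := FiniteField.pow_card_sub_one_eq_one (2 : F) (left_ne_zero_of_mul_eq_one hh)
      rwa [hc] at this
    have h4 : (h * h) ^ f * 2 ^ (3 * f) = 2 ^ f := by
      rw [pow_mul, ← mul_pow]
      congr 1
      linear_combination (4 * h + 2) * hh
    rw [← h4, h3, mul_one, e]
    push_cast
    linear_combination -hw

theorem odd_of_norm {n a b c : ℤ} (hn : 0 < n) (h2 : Even n) (h3 : 3 ∣ n + 1)
    (e1 : a ^ 2 - a * b + b ^ 2 = n ^ 2 + n + 1) (e2 : a + b * n = (n ^ 2 + n + 1) * c)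
    (hb : 3 ∣ b) : Odd a ∧ Odd b := by
  obtain ⟨d, rfl⟩ : ∃ d, b = d + n * c := ⟨b - n * c, by ring⟩
  obtain rfl : a = c * (n + 1) - d * n := by linear_combination e2
  have hp : n ^ 2 + n + 1 ≠ 0 := by positivity
  have e3 : c ^ 2 - c * d + d ^ 2 = 1 := mul_left_cancel₀ hp (by linear_combination e1)
  have c1 : c ≤ 1 := by nlinarith [sq_nonneg (c - 2 * d), sq_nonneg (c - 2)]
  have c2 : -1 ≤ c := by nlinarith [sq_nonneg (c - 2 * d), sq_nonneg (c + 2)]
  have d1 : d ≤ 1 := by nlinarith [sq_nonneg (d - 2 * c), sq_nonneg (d - 2)]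
  have d2 : -1 ≤ d := by nlinarith [sq_nonneg (d - 2 * c), sq_nonneg (d + 2)]
  rw [Int.even_iff] at h2
  rw [Int.odd_iff, Int.odd_iff]
  interval_cases c <;> interval_cases d <;> omega

/-- For admissible `n`, the residue of `n` is an explicit power of two. -/
theorem two_pow_eq {p n s : ℕ} [Fact p.Prime] (hp : p = n ^ 2 + n + 1) (h2 : Even n)
    (h3 : n + 1 = 3 * s) (h : (2 : ZMod p) ^ (n + 1) = 1) : (2 : ZMod p) ^ s = (n : ZMod p) := by
  obtain ⟨t, rfl⟩ : ∃ t, s = t + 1 := ⟨s - 1, by omega⟩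
  have hn : n = 3 * t + 2 := by omega
  have hw : (n : ZMod p) ^ 2 + n + 1 = 0 := by
    have := ZMod.natCast_self p
    conv_lhs at this => congr; rw [hp]
    exact_mod_cast this
  have h0 : (2 : ZMod p) ≠ 0 := fun e => by simp [e] at h
  have hc : n ^ 2 + n + 1 = 3 * (n * (t + 1)) + 1 := by
    rw [mul_left_comm, ← h3]
    ring
  obtain ⟨a, b, e1, e2, e3, e4⟩ := jacobi (f := n * (t + 1)) (Nat.mul_pos (by omega) (by omega))
    ((ZMod.card _).trans (hp.trans hc)) hw (mul_inv_cancel₀ h0)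
  obtain ⟨c, e5⟩ : (p : ℤ) ∣ a + b * n :=
    (ZMod.intCast_zmod_eq_zero_iff_dvd _ _).1 (by push_cast; exact e2)
  obtain ⟨oa, ob⟩ := odd_of_norm (n := n) (c := c) (by omega) (by exact_mod_cast h2) (by omega)
    (by rw [e1]; exact_mod_cast hc.symm) (by rw [e5, hp]; push_cast; ring) e3
  have e6 := e4 oa ob
  rw [h3, mul_comm, pow_mul] at h
  rw [mul_comm, pow_mul] at e6
  generalize (2 : ZMod p) ^ (t + 1) = ζ at *
  have e7 : ζ ^ n = ζ ^ 2 := by rw [hn, pow_add, pow_mul, h, one_pow, one_mul]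
  have e8 := cube_one hw
  rw [e7] at e6
  linear_combination (-ζ) * h + (ζ ^ 2 + (n : ZMod p) ^ 2) * e6 + (n : ZMod p) * e8

theorem pow_of_modEq {p j c M : ℕ} (hp : p.Prime) (h2 : p ≠ 2) (hlt : 2 ^ c * M < p)
    (h : 2 ^ j ≡ 2 ^ c * M [MOD p]) (hj : 2 ^ j ≤ 2 ^ c * p) : ∃ k, 2 ^ c * M = 2 ^ k := by
  have hco : ∀ i, Nat.Coprime p (2 ^ i) := fun i =>
    ((Nat.coprime_primes hp Nat.prime_two).2 h2).pow_right i
  rcases le_or_gt c j with hc | hc
  · obtain ⟨i, rfl⟩ := Nat.exists_eq_add_of_le hc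
    rw [pow_add] at h hj
    have h1 : 2 ^ i ≡ M [MOD p] := Nat.ModEq.cancel_left_of_coprime (hco c) h
    have h3 : 2 ^ i ≤ p := Nat.le_of_mul_le_mul_left hj (by positivity)
    have h4 : 2 ^ i ≠ p := fun e => hp.one_lt.ne' (by simpa [e] using hco i)
    have h5 : M < p := lt_of_le_of_lt (Nat.le_mul_of_pos_left M (by positivity)) hlt
    exact ⟨c + i, by rw [pow_add, h1.eq_of_lt_of_lt (lt_of_le_of_ne h3 h4) h5]⟩
  · refine ⟨j, (h.eq_of_lt_of_lt ?_ hlt).symm⟩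
    rcases Nat.eq_zero_or_pos M with rfl | hM
    · have := (Nat.modEq_zero_iff_dvd.1 (by simpa using h) : p ∣ 2 ^ j)
      exact absurd ((hco j).eq_one_of_dvd this) hp.one_lt.ne'
    · exact lt_trans (lt_of_lt_of_le (Nat.pow_lt_pow_right (by norm_num) hc)
        (Nat.le_mul_of_pos_right _ hM)) hlt

theorem climb {p a m j s : ℕ} (hp : p.Prime) (h2 : p ≠ 2) (hs : s ≤ 2)
    (hlt : (2 ^ a * m) ^ 2 < p) (hm : 0 < m) (h3 : (2 ^ a * m) ^ 3 ≡ 1 [MOD p])
    (h : 2 ^ j ≡ (2 ^ a * m) ^ s [MOD p]) (hs0 : 0 < s) (hn : ∀ k, ¬m ∣ 2 ^ k) (t : ℕ)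
    (ht : 2 ^ a * m ^ (3 * t + 2) < p) : 2 ^ (a * (3 * t + s)) * p < 2 ^ j := by
  have key : ∀ {c i r : ℕ}, 0 < r → 2 ^ c * m ^ r < p → 2 ^ i ≡ 2 ^ c * m ^ r [MOD p] →
      2 ^ c * p < 2 ^ i := fun {c i r} hr h1 h4 => not_le.1 fun h5 => by
    obtain ⟨k, hk⟩ := pow_of_modEq hp h2 h1 h4 h5
    exact hn k (hk ▸ (dvd_pow_self m hr.ne').mul_left _)
  induction t with
  | zero =>
    rw [mul_pow, ← pow_mul] at h
    simp only [mul_zero, zero_add]
    refine key hs0 (lt_of_le_of_lt ?_ hlt) h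
    rw [pow_mul, ← mul_pow]
    exact Nat.pow_le_pow_right (by positivity) hs
  | succ t ih =>
    have h1 := ih (lt_of_le_of_lt (Nat.mul_le_mul_left _
      (Nat.pow_le_pow_right hm (by omega))) ht)
    have h4 : 2 ^ (a * (3 * t + s + 2)) < 2 ^ j := by
      refine lt_of_le_of_lt ?_ h1
      rw [mul_add, pow_add]
      refine Nat.mul_le_mul_left _ (le_trans ?_ hlt.le)
      rw [pow_mul]
      exact Nat.pow_le_pow_left (Nat.le_mul_of_pos_right _ hm) 2
    obtain ⟨i, rfl⟩ := Nat.exists_eq_add_of_le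
      ((Nat.pow_lt_pow_iff_right (by norm_num)).1 h4).le
    have h7 := ((h3.pow (t + 1)).mul_right ((2 ^ a * m) ^ s)).symm
    rw [one_pow, one_mul] at h7
    have h5 := h.trans h7
    have e : ((2 ^ a * m) ^ 3) ^ (t + 1) * (2 ^ a * m) ^ s =
        2 ^ (a * (3 * t + s + 2)) * (2 ^ a * m ^ (3 * (t + 1) + s)) := by ring
    rw [e, pow_add] at h5
    have h6 := key (by omega) (lt_of_le_of_lt (Nat.mul_le_mul_left _
      (Nat.pow_le_pow_right hm (by omega))) ht) (Nat.ModEq.cancel_left_of_coprime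
        (((Nat.coprime_primes hp Nat.prime_two).2 h2).pow_right _) h5)
    calc 2 ^ (a * (3 * (t + 1) + s)) * p = 2 ^ (a * (3 * t + s + 2)) * (2 ^ a * p) := by ring
      _ < 2 ^ (a * (3 * t + s + 2)) * 2 ^ i := Nat.mul_lt_mul_of_pos_left h6 (by positivity)
      _ = _ := (pow_add _ _ _).symm

theorem small_order {p n a m t e : ℕ} (hp : p = n ^ 2 + n + 1) (h2 : Even n) (hpr : p.Prime)
    (h : 2 ^ (n + 1) ≡ 1 [MOD p]) (h3 : 3 ∣ n + 1) (hm : n = 2 ^ a * m)
    (ht : 2 ^ a * m ^ (3 * t + 2) < p) (he : 0 < e) (h1 : 2 ^ e ≡ 1 [MOD p])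
    (hs : 2 ^ e ≤ (2 ^ (a * (3 * t + 1)) * p) ^ 3) : ∃ k, n = 2 ^ k := by
  have := Fact.mk hpr
  obtain ⟨s, hs3⟩ := h3
  have cast : ∀ {x y : ℕ}, x ≡ y [MOD p] ↔ (x : ZMod p) = y := fun {x y} =>
    (ZMod.natCast_eq_natCast_iff _ _ _).symm
  have g1 : (2 : ZMod p) ^ (n + 1) = 1 := by exact_mod_cast cast.1 h
  have g2 : (2 : ZMod p) ^ e = 1 := by exact_mod_cast cast.1 h1
  have g3 := two_pow_eq hp h2 hs3 g1
  have hn : 2 ≤ n := by omega
  have hw : (n : ZMod p) ^ 2 + n + 1 = 0 := by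
    have := ZMod.natCast_self p
    conv_lhs at this => congr; rw [hp]
    exact_mod_cast this
  have l1 : n < p := by nlinarith
  have l2 : n ^ 2 < p := by omega
  have hw1 : (n : ZMod p) ≠ 1 := fun e => by
    have := (cast (x := n) (y := 1)).2 (by exact_mod_cast e)
    have := this.eq_of_lt_of_lt l1 hpr.one_lt
    omega
  have d1 : orderOf (2 : ZMod p) ∣ 3 * s := hs3 ▸ orderOf_dvd_of_pow_eq_one g1
  have d2 : orderOf (2 : ZMod p) ≤ e := Nat.le_of_dvd he (orderOf_dvd_of_pow_eq_one g2)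
  obtain ⟨j, hj⟩ : 3 ∣ orderOf (2 : ZMod p) := by
    by_contra hc
    have := ((Nat.prime_three.coprime_iff_not_dvd.2 hc).symm).dvd_of_dvd_mul_left d1
    exact hw1 (g3.symm.trans (orderOf_dvd_iff_pow_eq_one.1 this))
  have g4 : ((2 : ZMod p) ^ j) ^ 3 = 1 := by rw [← pow_mul, mul_comm, ← hj, pow_orderOf_eq_one]
  have g5 : (2 : ZMod p) ^ j ≠ 1 := fun e => by
    obtain ⟨r, hr⟩ := Nat.dvd_of_mul_dvd_mul_left (by norm_num) (hj ▸ d1)
    exact hw1 (by rw [← g3, hr, pow_mul, e, one_pow])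
  have g6 : 2 ^ j ≤ 2 ^ (a * (3 * t + 1)) * p := by
    refine (Nat.pow_le_pow_iff_left (n := 3) (by norm_num)).1 (le_trans ?_ hs)
    rw [← pow_mul]
    exact Nat.pow_le_pow_right (by norm_num) (by omega)
  have hp2 : p ≠ 2 := by omega
  have g7 : ((2 : ZMod p) ^ j - 1) * (((2 : ZMod p) ^ j - n) * ((2 : ZMod p) ^ j - n ^ 2)) = 0 := by
    linear_combination g4 + (-((2 : ZMod p) ^ j) ^ 2 + (2 : ZMod p) ^ j * n - n + 1) * hw
  obtain ⟨r, r0, r2, hr⟩ : ∃ r, 0 < r ∧ r ≤ 2 ∧ 2 ^ j ≡ n ^ r [MOD p] := by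
    rcases mul_eq_zero.1 ((mul_eq_zero.1 g7).resolve_left (sub_ne_zero.2 g5)) with g | g
    · exact ⟨1, one_pos, one_le_two, cast.2 (by rw [pow_one]; exact_mod_cast sub_eq_zero.1 g)⟩
    · exact ⟨2, two_pos, le_rfl, cast.2 (by exact_mod_cast sub_eq_zero.1 g)⟩
  have g8 : n ^ 3 ≡ 1 [MOD p] := cast.2 (by exact_mod_cast cube_one hw)
  have hm0 : 0 < m := Nat.pos_of_ne_zero fun e => by simp [e] at hm; omega
  by_contra hc
  have g9 := climb hpr hp2 r2 (hm ▸ l2) hm0 (hm ▸ g8) (hm ▸ hr) r0 (fun k hk => by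
    obtain ⟨i, -, hi⟩ := (Nat.dvd_prime_pow Nat.prime_two).1 hk
    exact hc ⟨a + i, by rw [hm, hi, pow_add]⟩) t ht
  exact not_le.2 g9 (g6.trans (Nat.mul_le_mul_right p (Nat.pow_le_pow_right (by norm_num)
    (Nat.mul_le_mul_left a (by omega)))))

end Pool.Agent.Lib.MP_c1fe4e_nt
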